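import Pool.Agent.H104.ML.Stm

set_option autoImplicit false

open Polynomial Finset MeasureTheory

namespace Pool.Agent.Q162.ML

open Pool.Agent.H104.ML

theorem roots_enum (g : ℤ[X]) (hg : g.Monic) :
    ∃ (D : ℕ) (α : Fin D → ℂ), g.map (Int.castRingHom ℂ) = ∏ s, (X - C (α s)) := by
  have h1 : (g.map (Int.castRingHom ℂ)).Monic := hg.map _
  have h2 := IsAlgClosed.splits (g.map (Int.castRingHom ℂ))
  have h3 := h2.eq_prod_roots_of_monic h1
  refine ⟨(g.map (Int.castRingHom ℂ)).roots.toList.length,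
    fun i => (g.map (Int.castRingHom ℂ)).roots.toList[(i : ℕ)], ?_⟩
  have h4 := Fin.prod_univ_fun_getElem (g.map (Int.castRingHom ℂ)).roots.toList
    (fun a : ℂ => (X - C a : ℂ[X]))
  refine Eq.trans ?_ h4.symm
  refine h3.trans ?_
  conv_lhs => rw [← Multiset.coe_toList (g.map (Int.castRingHom ℂ)).roots]
  rw [Multiset.map_coe, Multiset.prod_coe]

/-- the pairs `(b, c)` with `c / b` prime -/
def Ed (b c : ℕ) : Prop := b ∣ c ∧ (c / b).Prime

open Classical in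
theorem pw (h2 : S_RES1) (h3 : S_RES2) (μ : ℕ → ℕ) (b c : ℕ) (hb : Squarefree b)
    (hc : Squarefree c) :
    ((if b = c then (μ b : ℝ) ^ 2 * ((b.totient : ℝ) * Real.log b -
      ∑ p ∈ b.primeFactors, ((b / p).totient : ℝ) * Real.log p) else 0) +
      (if Ed b c then (μ b : ℝ) * (μ c : ℝ) * (b.totient : ℝ) * Real.log ((c / b : ℕ) : ℝ) else 0) +
      (if Ed c b then (μ c : ℝ) * (μ b : ℝ) * (c.totient : ℝ) * Real.log ((b / c : ℕ) : ℝ) else 0)) ≤
      (μ b : ℝ) * (μ c : ℝ) * Real.log (RR b c) := by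
  have hb1 : 1 ≤ b := Nat.pos_of_ne_zero hb.ne_zero
  have hc1 : 1 ≤ c := Nat.pos_of_ne_zero hc.ne_zero
  by_cases hbc : b = c
  · subst hbc
    have h4 : ¬ Ed b b := by
      rintro ⟨-, h⟩
      rw [Nat.div_self hb1] at h
      exact Nat.not_prime_one h
    rw [if_pos rfl, if_neg h4, h3.2 b hb]
    exact le_of_eq (by ring)
  · rw [if_neg hbc]
    by_cases h4 : Ed b c
    · have h5 : ¬ Ed c b := fun h => hbc (Nat.dvd_antisymm h4.1 h.1)
      rw [if_pos h4, if_neg h5]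
      obtain ⟨⟨p, rfl⟩, hp⟩ := h4
      rw [Nat.mul_div_cancel_left p hb1] at hp ⊢
      rw [(h3.1 b p hc hp).1]
      exact le_of_eq (by ring)
    · rw [if_neg h4]
      by_cases h5 : Ed c b
      · rw [if_pos h5]
        obtain ⟨⟨p, rfl⟩, hp⟩ := h5
        rw [Nat.mul_div_cancel_left p hc1] at hp ⊢
        rw [(h3.1 c p hb hp).2]
        exact le_of_eq (by ring)
      · rw [if_neg h5]
        have h6 : 0 ≤ Real.log (RR b c) := Real.log_nonneg (h2 b c hb1 hc1 hbc)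
        have h7 : 0 ≤ (μ b : ℝ) * (μ c : ℝ) := by positivity
        linarith [mul_nonneg h7 h6]

theorem t_CORE2 (h1 : S_CORE) (h2 : S_RES1) (h3 : S_RES2) (h4 : S_CYC) (h5 : S_PERZ) :
    S_CORE2 := by
  classical
  intro S μ n hS hn hD hE
  have hg : (gg S μ).Monic := by
    unfold gg
    exact monic_prod_of_monic _ _ fun b _ => (cyclotomic.monic b ℤ).pow _
  obtain ⟨D, α, hα⟩ := roots_enum _ hg
  have hS1 : ∀ b ∈ S, 1 ≤ b := fun b hb => Nat.pos_of_ne_zero (hS b hb).ne_zero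
  obtain ⟨c1, c2, c3, c4⟩ := h4 S μ D α hS1 hα
  refine h1 _ D n α hg hα c1 hn (by rw [c2]; exact hD) ?_
  have c5 := c3 fun t => (Real.log (t.factorial : ℝ) + t * Real.log 4 - Real.log 2
      - ((t : ℝ) + 1 / 2) * Real.log n)
  have e1 : ∀ s, (Real.log ((tau α s).factorial : ℝ) + tau α s * Real.log 4 - Real.log 2
      - ((tau α s : ℝ) + 1 / 2) * Real.log n) = (fun t : ℕ => (Real.log (t.factorial : ℝ) +
        t * Real.log 4 - Real.log 2 - ((t : ℝ) + 1 / 2) * Real.log n)) (tau α s) := fun s => rfl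
  rw [c5, c4]
  have c6 : -(1 / 2 * ∑ b ∈ S, (b.totient : ℝ) * (μ b : ℝ) ^ 2 * (Real.log n - Real.log (μ b) + 5)) ≤
      ∑ b ∈ S, (b.totient : ℝ) * ∑ t ∈ range (μ b), (Real.log (t.factorial : ℝ) + t * Real.log 4 -
        Real.log 2 - ((t : ℝ) + 1 / 2) * Real.log n) := by
    rw [Finset.mul_sum, ← Finset.sum_neg_distrib]
    refine Finset.sum_le_sum fun b _ => ?_
    have h6 := mul_le_mul_of_nonneg_left (h5 n (μ b) hn) (Nat.cast_nonneg (α := ℝ) b.totient)
    refine le_trans (le_of_eq ?_) h6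
    ring
  have c7 : ∑ b ∈ S, (μ b : ℝ) ^ 2 * ((b.totient : ℝ) * Real.log b -
      ∑ p ∈ b.primeFactors, ((b / p).totient : ℝ) * Real.log p)
      + 2 * ∑ x ∈ edges S, (μ x.1 : ℝ) * (μ x.2 : ℝ) * (x.1.totient : ℝ) *
        Real.log ((x.2 / x.1 : ℕ) : ℝ) ≤
      ∑ b ∈ S, ∑ c ∈ S, (μ b : ℝ) * (μ c : ℝ) * Real.log (RR b c) := by
    have h6 := Finset.sum_le_sum fun b (hb : b ∈ S) => Finset.sum_le_sum fun c (hc : c ∈ S) =>
      pw h2 h3 μ b c (hS b hb) (hS c hc)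
    refine le_trans (le_of_eq ?_) h6
    simp only [Finset.sum_add_distrib]
    have h7 : ∑ b ∈ S, ∑ c ∈ S, (if b = c then (μ b : ℝ) ^ 2 * ((b.totient : ℝ) * Real.log b -
        ∑ p ∈ b.primeFactors, ((b / p).totient : ℝ) * Real.log p) else 0) =
        ∑ b ∈ S, (μ b : ℝ) ^ 2 * ((b.totient : ℝ) * Real.log b -
          ∑ p ∈ b.primeFactors, ((b / p).totient : ℝ) * Real.log p) := by
      refine Finset.sum_congr rfl fun b hb => ?_
      rw [Finset.sum_ite_eq, if_pos hb]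
    have h8 : ∑ x ∈ edges S, (μ x.1 : ℝ) * (μ x.2 : ℝ) * (x.1.totient : ℝ) *
        Real.log ((x.2 / x.1 : ℕ) : ℝ) = ∑ b ∈ S, ∑ c ∈ S, (if Ed b c then
          (μ b : ℝ) * (μ c : ℝ) * (b.totient : ℝ) * Real.log ((c / b : ℕ) : ℝ) else 0) := by
      unfold edges
      rw [Finset.sum_filter, Finset.sum_product]
      refine Finset.sum_congr rfl fun b _ => Finset.sum_congr rfl fun c _ => ?_
      by_cases h : Ed b c
      · exact (if_pos h).trans (if_pos h).symm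
      · exact (if_neg h).trans (if_neg h).symm
    have h9 : ∑ b ∈ S, ∑ c ∈ S, (if Ed c b then
          (μ c : ℝ) * (μ b : ℝ) * (c.totient : ℝ) * Real.log ((b / c : ℕ) : ℝ) else 0) =
        ∑ b ∈ S, ∑ c ∈ S, (if Ed b c then
          (μ b : ℝ) * (μ c : ℝ) * (b.totient : ℝ) * Real.log ((c / b : ℕ) : ℝ) else 0) :=
      Finset.sum_comm
    rw [h7, h8, h9]
    ring
  unfold EEd at hE
  linarith

end Pool.Agent.Q162.ML
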