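import Pool.Agent.H104.ML.Stm

set_option autoImplicit false

open Polynomial Finset MeasureTheory

namespace Pool.Agent.Q162.ML

open Pool.Agent.H104.ML

theorem exp_half_lt : 2 * Real.exp (1 / 2) < 17 / 5 := by
  have h1 : Real.exp (1 / 2) * Real.exp (1 / 2) = Real.exp 1 := by
    rw [← Real.exp_add]
    norm_num
  have h2 := Real.exp_one_lt_d9
  have h3 := Real.exp_pos (1 / 2)
  by_contra h
  push Not at h
  nlinarith

theorem t_VOL (h1 : S_CELL) (h2 : S_PARS) : S_VOL := by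
  intro D n A B hn hId hDn hsum hdet
  by_contra hcon
  push Not at hcon
  have hinj : ∀ x x' : Fin n → Fin 2, (∀ i, ∑ j, A i j * (((x j : Fin 2) : ℕ) : ℤ) =
      ∑ j, A i j * (((x' j : Fin 2) : ℕ) : ℤ)) → x = x' := by
    intro x x' hx
    by_contra hne
    obtain ⟨i, hi⟩ := hcon x x' hne
    exact hi (hx i)
  obtain ⟨Ω, hΩm, hΩ, hΩv⟩ := h1 D n (fun s j => ∑ i, B s i * (A i j : ℝ)) hDn hsum
  have hdet0 : 0 < |B.det| := lt_of_lt_of_le (Real.exp_pos _) hdet
  have hBdet : B.det ≠ 0 := abs_pos.1 hdet0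
  set L : (Fin D → ℝ) →ₗ[ℝ] (Fin D → ℝ) := Matrix.toLin' B.transpose with hL
  have hLdet : LinearMap.det L = B.det := by
    rw [hL, LinearMap.det_toLin', Matrix.det_transpose]
  have hLinj : Function.Injective L := by
    rw [← LinearMap.ker_eq_bot]
    by_contra h
    exact hBdet (hLdet ▸ (LinearMap.det_eq_zero_iff_ker_ne_bot.2 h))
  have hLc : Continuous L := LinearMap.continuous_of_finiteDimensional L
  have hm : MeasurableSet (L '' Ω) :=
    (hLc.measurableEmbedding hLinj).measurableSet_image.2 hΩm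
  have hvol : volume (L '' Ω) = ENNReal.ofReal |B.det| * volume Ω := by
    rw [Measure.addHaar_image_linearMap, hLdet]
  have hkey : ∀ θ ∈ L '' Ω, ∀ j, |∑ i, θ i * (A i j : ℝ)| ≤ 1 / 8 := by
    rintro _ ⟨c, hc, rfl⟩ j
    have h3 := hΩ c hc j
    have h4 : ∑ i, L c i * (A i j : ℝ) = ∑ s, c s * ∑ i, B s i * (A i j : ℝ) := by
      have h5 : ∀ i, L c i = ∑ s, B s i * c s := fun i => by
        rw [hL, Matrix.toLin'_apply]
        rfl
      simp only [h5, Finset.sum_mul, Finset.mul_sum]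
      rw [Finset.sum_comm]
      refine Finset.sum_congr rfl fun s _ => Finset.sum_congr rfl fun i _ => ?_
      ring
    rw [h4]
    exact h3
  have hcube : ∀ θ ∈ L '' Ω, ∀ i, |θ i| ≤ 1 / 8 := by
    intro θ hθ i
    have hi : (i : ℕ) < n := by
      have := i.2
      omega
    have h3 := hkey θ hθ ⟨i, hi⟩
    have h4 : ∑ i', θ i' * (A i' ⟨i, hi⟩ : ℝ) = θ i := by
      rw [Finset.sum_eq_single i]
      · rw [hId i i hi]
        simp
      · intro b _ hb
        rw [hId b i hi, if_neg hb]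
        simp
      · intro h
        exact absurd (Finset.mem_univ i) h
    rw [h4] at h3
    exact h3
  have h3 := h2 D n A hinj (L '' Ω) hm fun θ hθ =>
    ⟨fun i => (hcube θ hθ i).trans (by norm_num), hkey θ hθ⟩
  have hfin : volume (L '' Ω) ≠ ⊤ := by
    have h4 : L '' Ω ⊆ Metric.closedBall 0 (1 / 8) := by
      intro θ hθ
      rw [mem_closedBall_zero_iff, pi_norm_le_iff_of_nonneg (by norm_num)]
      exact hcube θ hθ
    exact ((measure_mono h4).trans_lt measure_closedBall_lt_top).ne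
  have h5 : Real.exp (-((n : ℝ) / 2)) ≤ (volume (L '' Ω)).toReal := by
    rw [← ENNReal.ofReal_le_iff_le_toReal hfin, hvol]
    have h6 : Real.exp (-((n : ℝ) / 2)) =
        Real.exp (-(2 / 5 * (n : ℝ))) * Real.exp (-((n : ℝ) / 10)) := by
      rw [← Real.exp_add]
      congr 1
      ring
    rw [h6, ENNReal.ofReal_mul (Real.exp_pos _).le]
    exact mul_le_mul' (ENNReal.ofReal_le_ofReal hdet) hΩv
  have h7 : (17 / 5 : ℝ) ^ n * Real.exp (-((n : ℝ) / 2)) ≤ 2 ^ n :=
    le_trans (mul_le_mul_of_nonneg_left h5 (by positivity)) h3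
  have h8 : Real.exp ((n : ℝ) / 2) = Real.exp (1 / 2) ^ n := by
    rw [← Real.exp_nat_mul]
    congr 1
    ring
  have h9 : (17 / 5 : ℝ) ^ n ≤ (2 * Real.exp (1 / 2)) ^ n := by
    rw [mul_pow, ← h8]
    calc (17 / 5 : ℝ) ^ n = (17 / 5 : ℝ) ^ n * Real.exp (-((n : ℝ) / 2)) * Real.exp ((n : ℝ) / 2) := by
          rw [mul_assoc, ← Real.exp_add]
          simp
      _ ≤ 2 ^ n * Real.exp ((n : ℝ) / 2) := mul_le_mul_of_nonneg_right h7 (Real.exp_pos _).le
  have h10 : (2 * Real.exp (1 / 2)) ^ n < (17 / 5 : ℝ) ^ n :=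
    pow_lt_pow_left₀ exp_half_lt (by positivity) (by omega)
  exact absurd h9 (not_le.2 h10)

end Pool.Agent.Q162.ML
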